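import Mathlib

/-!
# Body of flotation, body of buoyancy: definitions
-/

open MeasureTheory

namespace Pool.Agent.Lib.MP_56fddc_gt

/-- Euclidean space `ℝⁿ`. -/
abbrev E (n : ℕ) : Type := EuclideanSpace ℝ (Fin n)

/-- A *convex body* is a compact convex set with nonempty interior. -/
def IsConvexBody {n : ℕ} (K : Set (E n)) : Prop :=
  IsCompact K ∧ Convex ℝ K ∧ (interior K).Nonempty

/-- The closed half-spaces of `ℝⁿ` are the sets `{x | b ≤ ⟪a, x⟫}` with `a ≠ 0`. -/
def IsClosedHalfSpace {n : ℕ} (H : Set (E n)) : Prop :=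
  ∃ (a : E n) (b : ℝ), a ≠ 0 ∧ H = {x | b ≤ inner ℝ a x}

/-- `H` is `δ`-admissible for `K` if it is a closed half-space and `Vol(K ∩ H) = δ`. -/
def IsAdmissible {n : ℕ} (K : Set (E n)) (δ : ℝ) (H : Set (E n)) : Prop :=
  IsClosedHalfSpace H ∧ volume (K ∩ H) = ENNReal.ofReal δ

/-- The centroid `(1/Vol(S)) ∫_S x dx` of a set `S`. -/
noncomputable def centroid {n : ℕ} (S : Set (E n)) : E n := ⨍ x in S, x

/-- The body of flotation: the intersection of the closures of `K \ H`, `H` `δ`-admissible. -/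
def bodyOfFlotation {n : ℕ} (K : Set (E n)) (δ : ℝ) : Set (E n) :=
  ⋂ H ∈ {H : Set (E n) | IsAdmissible K δ H}, closure (K \ H)

/-- The body of buoyancy: the convex hull of the centroids of `K ∩ H`, `H` `δ`-admissible. -/
def bodyOfBuoyancy {n : ℕ} (K : Set (E n)) (δ : ℝ) : Set (E n) :=
  convexHull ℝ {c : E n | ∃ H : Set (E n), IsAdmissible K δ H ∧ c = centroid (K ∩ H)}

/-- `A` and `B` are homothetic: a dilation `x ↦ c + r (x - c)` with `r > 0` maps `A` onto `B`. -/
def AreHomothetic {n : ℕ} (A B : Set (E n)) : Prop :=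
  ∃ (c : E n) (r : ℝ), 0 < r ∧ (fun x => c + r • (x - c)) '' A = B

/-- An *ellipsoid* is the image of the closed unit ball under an invertible affine map. -/
def IsEllipsoid {n : ℕ} (K : Set (E n)) : Prop :=
  ∃ (L : E n ≃ₗ[ℝ] E n) (c : E n), K = (fun x => c + L x) '' Metric.closedBall 0 1

end Pool.Agent.Lib.MP_56fddc_gt
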