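import Pool.Agent.Lib.MP_56fddc_gt.Sym
import Pool.Agent.Lib.MP_56fddc_gt.Hull

/-!
# The body of flotation and the body of buoyancy of the hexagon
-/

open MeasureTheory Set

namespace Pool.Agent.Lib.MP_56fddc_gt

theorem ofReal_half_ne_zero : ENNReal.ofReal (1 / 2) ≠ 0 := by
  rw [Ne, ENNReal.ofReal_eq_zero]; norm_num

theorem nonempty_cap_of_volume {a : E 2} {b : ℝ} (h : volume (cap a b) = ENNReal.ofReal (1 / 2)) :
    (cap a b).Nonempty := by
  by_contra hcon
  rw [not_nonempty_iff_eq_empty] at hcon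
  rw [hcon, measure_empty] at h
  exact ofReal_half_ne_zero h.symm

theorem volume_cap_lt {a : E 2} {b1 b2 : ℝ} (h12 : b1 < b2) (hb2 : 0 < b2)
    (hne : (cap a b2).Nonempty) : volume (cap a b2) < volume (cap a b1) := by
  obtain ⟨x, hxK, hx⟩ := hne
  have hx' : b2 ≤ inner ℝ a x := hx
  set U : Set (E 2) := interior hex ∩ {y | b1 < inner ℝ a y ∧ inner ℝ a y < b2} with hU
  have hUo : IsOpen U := by
    apply isOpen_interior.inter
    have hc : Continuous fun y : E 2 => (inner ℝ a y : ℝ) := continuous_const.inner continuous_id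
    exact (isOpen_lt (continuous_const (y := b1)) hc).inter
      (isOpen_lt hc (continuous_const (y := b2)))
  have hUne : U.Nonempty := by
    set m := max b1 0 with hm
    have hm1 : b1 ≤ m := le_max_left _ _
    have hm0 : 0 ≤ m := le_max_right _ _
    have hm2 : m < b2 := max_lt h12 hb2
    set e := (m + b2) / 2 with he
    have hI : 0 < inner ℝ a x := hb2.trans_le hx'
    set t := e / inner ℝ a x with ht
    have he0 : 0 < e := by rw [he]; linarith
    have ht0 : 0 < t := div_pos he0 hI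
    have ht1 : t < 1 := by
      rw [ht, div_lt_one hI]
      linarith
    refine ⟨t • x, ?_, ?_⟩
    · have := convex_hex.combo_interior_self_mem_interior zero_mem_interior_hex hxK
        (sub_pos.2 ht1) ht0.le (by ring)
      simpa using this
    · have h3 : inner ℝ a (t • x) = e := by
        rw [inner_smul_right, ht]
        field_simp
      change b1 < inner ℝ a (t • x) ∧ inner ℝ a (t • x) < b2
      rw [h3, he]
      constructor <;> linarith
  have hUpos : 0 < volume U := hUo.measure_pos volume hUne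
  have hdisj : Disjoint (cap a b2) U := by
    rw [Set.disjoint_left]
    rintro y ⟨-, hy1⟩ ⟨-, -, hy2⟩
    have hy1' : b2 ≤ inner ℝ a y := hy1
    linarith
  have hsub : cap a b2 ∪ U ⊆ cap a b1 := by
    rintro y (⟨hyK, hy⟩ | ⟨hyK, hy, -⟩)
    · exact ⟨hyK, h12.le.trans hy⟩
    · exact ⟨interior_subset hyK, hy.le⟩
  calc volume (cap a b2) < volume (cap a b2) + volume U :=
        ENNReal.lt_add_right (volume_cap_lt_top a b2).ne hUpos.ne'
    _ = volume (cap a b2 ∪ U) := (measure_union hdisj hUo.measurableSet).symm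
    _ ≤ volume (cap a b1) := measure_mono hsub

theorem level_unique {a : E 2} {b b' : ℝ} (hb : 0 < b)
    (h : volume (cap a b) = ENNReal.ofReal (1 / 2))
    (h' : volume (cap a b') = ENNReal.ofReal (1 / 2)) : b' = b := by
  rcases lt_trichotomy b' b with hlt | heq | hgt
  · have := volume_cap_lt hlt hb (nonempty_cap_of_volume h)
    rw [h, h'] at this
    exact absurd this (lt_irrefl _)
  · exact heq
  · have := volume_cap_lt hgt (hb.trans hgt) (nonempty_cap_of_volume h')
    rw [h, h'] at this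
    exact absurd this (lt_irrefl _)

/-- Any `1/2`-admissible half-space is cut off at a good level. -/
theorem good_of_volume {a : E 2} (ha : a ≠ 0) {b : ℝ}
    (h : volume (cap a b) = ENNReal.ofReal (1 / 2)) :
    0 < b ∧ centroid (cap a b) ∈ cset ∧ inner ℝ a (centroid (cap a b)) = 4 / 3 * b := by
  obtain ⟨b0, hb0, hv, hc, hi⟩ := good_of_ne_zero ha
  have := level_unique hb0 hv h
  subst this
  exact ⟨hb0, hc, hi⟩

theorem inner_centroid {S : Set (E 2)} (hS : S ⊆ hex) (a : E 2) :
    inner ℝ a (centroid S) = (volume.real S)⁻¹ * ∫ x in S, inner ℝ a x := by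
  have h : ∫ x in S, inner ℝ a x = a 0 * (∫ x in S, x 0) + a 1 * ∫ x in S, x 1 := by
    rw [← integral_const_mul, ← integral_const_mul, ← integral_add
      ((integrableOn_hex (continuous_coord 0) hS).const_mul _)
      ((integrableOn_hex (continuous_coord 1) hS).const_mul _)]
    simp only [inner_two]
  rw [h, inner_two, centroid_apply hS, centroid_apply hS]
  ring

theorem volume_real_of_volume {S : Set (E 2)} (h : volume S = ENNReal.ofReal (1 / 2)) :
    volume.real S = 1 / 2 := by
  rw [Measure.real, h, ENNReal.toReal_ofReal (by norm_num)]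

/-- Bathtub principle: among subsets of the hexagon of area `1/2`, the cap orthogonal to `a`
has the largest centroid height in direction `a`. -/
theorem inner_centroid_le {a : E 2} {b : ℝ} (h : volume (cap a b) = ENNReal.ofReal (1 / 2))
    {S : Set (E 2)} (hS : S ⊆ hex)
    (hSv : volume S = ENNReal.ofReal (1 / 2)) :
    inner ℝ a (centroid S) ≤ inner ℝ a (centroid (cap a b)) := by
  have hcont : Continuous fun x : E 2 => inner ℝ a x := continuous_const.inner continuous_id
  have hposc : Continuous fun x : E 2 => max (inner ℝ a x - b) 0 :=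
    (hcont.sub continuous_const).max continuous_const
  rw [inner_centroid hS, inner_centroid (cap_subset a b), volume_real_of_volume h,
    volume_real_of_volume hSv]
  apply mul_le_mul_of_nonneg_left _ (by norm_num)
  have e1 : ∫ x in S, (inner ℝ a x - b) = (∫ x in S, inner ℝ a x) - b * (1 / 2) := by
    rw [integral_sub (integrableOn_hex hcont hS) (integrableOn_hex continuous_const hS),
      setIntegral_const, volume_real_of_volume hSv]
    simp [mul_comm]
  have e2 : ∫ x in cap a b, (inner ℝ a x - b) = (∫ x in cap a b, inner ℝ a x) - b * (1 / 2) := by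
    rw [integral_sub (integrableOn_hex hcont (cap_subset a b))
      (integrableOn_hex continuous_const (cap_subset a b)),
      setIntegral_const, volume_real_of_volume h]
    simp [mul_comm]
  have k1 : ∫ x in S, (inner ℝ a x - b) ≤ ∫ x in S, max (inner ℝ a x - b) 0 :=
    integral_mono (integrableOn_hex (hcont.sub continuous_const) hS) (integrableOn_hex hposc hS)
      fun x => le_max_left _ _
  have k2 : ∫ x in S, max (inner ℝ a x - b) 0 ≤ ∫ x in hex, max (inner ℝ a x - b) 0 := by
    apply setIntegral_mono_set (integrableOn_hex hposc subset_rfl)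
    · exact Filter.Eventually.of_forall fun x => le_max_right _ _
    · exact hS.eventuallyLE
  have k3 : ∫ x in hex, max (inner ℝ a x - b) 0 = ∫ x in cap a b, (inner ℝ a x - b) := by
    have hsplit : hex = cap a b ∪ (hex \ cap a b) := by
      rw [union_sdiff_cancel (cap_subset a b)]
    have hmeas : MeasurableSet (hex \ cap a b) :=
      isClosed_hex.measurableSet.diff (isClosed_cap a b).measurableSet
    rw [hsplit, setIntegral_union disjoint_sdiff_right hmeas
      (integrableOn_hex hposc (cap_subset a b)) (integrableOn_hex hposc sdiff_subset)]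
    have z : ∫ x in hex \ cap a b, max (inner ℝ a x - b) 0 = 0 := by
      apply setIntegral_eq_zero_of_forall_eq_zero
      rintro x ⟨hxK, hx⟩
      apply max_eq_right
      by_contra hcon
      push Not at hcon
      exact hx ⟨hxK, by have : b < inner ℝ a x := by linarith
                        exact this.le⟩
    rw [z, add_zero]
    apply setIntegral_congr_fun (isClosed_cap a b).measurableSet
    rintro x ⟨-, hx⟩
    apply max_eq_left
    have : b ≤ inner ℝ a x := hx
    linarith
  linarith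

theorem isAdmissible_iff {H : Set (E 2)} : IsAdmissible hex (1 / 2) H ↔
    ∃ (a : E 2) (b : ℝ), a ≠ 0 ∧ H = {x | b ≤ inner ℝ a x} ∧
      volume (cap a b) = ENNReal.ofReal (1 / 2) := by
  constructor
  · rintro ⟨⟨a, b, ha, rfl⟩, hv⟩
    exact ⟨a, b, ha, rfl, hv⟩
  · rintro ⟨a, b, ha, rfl, hv⟩
    exact ⟨⟨a, b, ha, rfl⟩, hv⟩

/-- The set of all centres of buoyancy. -/
def centres : Set (E 2) := {c | ∃ H, IsAdmissible hex (1 / 2) H ∧ c = centroid (hex ∩ H)}

theorem mem_centres_iff {c : E 2} : c ∈ centres ↔ ∃ (a : E 2) (b : ℝ), a ≠ 0 ∧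
    volume (cap a b) = ENNReal.ofReal (1 / 2) ∧ c = centroid (cap a b) := by
  constructor
  · rintro ⟨H, hH, rfl⟩
    obtain ⟨a, b, ha, rfl, hv⟩ := isAdmissible_iff.1 hH
    exact ⟨a, b, ha, hv, rfl⟩
  · rintro ⟨a, b, ha, hv, rfl⟩
    exact ⟨_, isAdmissible_iff.2 ⟨a, b, ha, rfl, hv⟩, rfl⟩

theorem rhoT_surjective_ne {a : E 2} (ha : a ≠ 0) : ∃ a' : E 2, a' ≠ 0 ∧ rhoT a' = a := by
  refine ⟨!₂[a 0 - a 1, a 0], ?_, ?_⟩
  · intro h
    apply ha
    have h0 : a 0 - a 1 = 0 := congrArg (fun v : E 2 => v 0) h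
    have h1 : a 0 = 0 := congrArg (fun v : E 2 => v 1) h
    apply ext_two
    · exact h1
    · have : a 1 = 0 := by linarith
      exact this
  · apply ext_two
    · rfl
    · rw [rhoT_one]
      change a 0 - (a 0 - a 1) = a 1
      ring

theorem rho_mem_centres {c : E 2} (hc : c ∈ centres) : rho c ∈ centres := by
  rw [mem_centres_iff] at hc ⊢
  obtain ⟨a, b, ha, hv, rfl⟩ := hc
  obtain ⟨a', ha', rfl⟩ := rhoT_surjective_ne ha
  refine ⟨a', b, ha', ?_, ?_⟩
  · rw [← volume_cap_rhoT]; exact hv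
  · exact (centroid_cap_rhoT a' b).symm

theorem arc_subset_centres : arc ⊆ centres := by
  rintro _ ⟨α, ⟨h1, h2⟩, rfl⟩
  rw [mem_centres_iff]
  have hα0 : 0 < α := by linarith
  have hβ1 : 1 ≤ 2 / α := by rw [le_div_iff₀ hα0]; linarith
  have hαβ : α * (2 / α) = 2 := by field_simp
  refine ⟨!₂[α, 2 / α], α + 2 / α - 2, ?_, ?_, ?_⟩
  · intro h
    have h0 : α = 0 := congrArg (fun v : E 2 => v 0) h
    linarith
  · exact volume_cap h1 hβ1 hαβ _ rfl rfl
  · rw [centroid_cap h1 hβ1 hαβ _ rfl rfl]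

theorem centres_eq_cset : centres = cset := by
  apply Subset.antisymm
  · intro c hc
    obtain ⟨a, b, ha, hv, rfl⟩ := mem_centres_iff.1 hc
    exact (good_of_volume ha hv).2.1
  · have h0 := arc_subset_centres
    rintro x (((((hx | ⟨y, hy, rfl⟩) | ⟨y, hy, rfl⟩) | ⟨y, hy, rfl⟩) | ⟨y, hy, rfl⟩) | ⟨y, hy, rfl⟩)
    · exact h0 hx
    · exact rho_mem_centres (h0 hy)
    · exact rho_mem_centres (rho_mem_centres (h0 hy))
    · exact rho_mem_centres (rho_mem_centres (rho_mem_centres (h0 hy)))
    · exact rho_mem_centres (rho_mem_centres (rho_mem_centres (rho_mem_centres (h0 hy))))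
    · exact rho_mem_centres (rho_mem_centres (rho_mem_centres (rho_mem_centres
        (rho_mem_centres (h0 hy)))))

theorem isCompact_bodyOfBuoyancy : IsCompact (bodyOfBuoyancy hex (1 / 2)) := by
  have h : IsCompact centres := by rw [centres_eq_cset]; exact isCompact_cset
  exact isCompact_convexHull_of_isCompact h

theorem mem_closure_diff {a : E 2} {b : ℝ} (hb : 0 < b) {x : E 2} (hx : x ∈ hex)
    (hxb : inner ℝ a x ≤ b) : x ∈ closure (hex \ {y | b ≤ inner ℝ a y}) := by
  have hlim : Filter.Tendsto (fun t : ℝ => t • x) (nhdsWithin 1 (Iio 1)) (nhds ((1 : ℝ) • x)) := by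
    apply Filter.Tendsto.mono_left _ nhdsWithin_le_nhds
    exact (continuous_id.smul continuous_const).tendsto 1
  rw [one_smul] at hlim
  apply mem_closure_of_tendsto hlim
  have h0 : ∀ᶠ t : ℝ in nhdsWithin 1 (Iio 1), 0 < t :=
    nhdsWithin_le_nhds (lt_mem_nhds one_pos)
  filter_upwards [h0, self_mem_nhdsWithin] with t ht0 ht1
  have ht1' : t < 1 := ht1
  refine ⟨?_, ?_⟩
  · have := convex_hex (interior_subset zero_mem_interior_hex) hx (sub_pos.2 ht1').le ht0.le
      (by ring)
    simpa using this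
  · intro hcon
    have h2 : b ≤ inner ℝ a (t • x) := hcon
    rw [inner_smul_right] at h2
    nlinarith

theorem inner_le_of_mem_closure {a : E 2} {b : ℝ} {x : E 2}
    (hx : x ∈ closure (hex \ {y | b ≤ inner ℝ a y})) : inner ℝ a x ≤ b := by
  have hcl : IsClosed {y : E 2 | inner ℝ a y ≤ b} :=
    isClosed_le (continuous_const.inner continuous_id) continuous_const
  apply closure_minimal _ hcl hx
  rintro y ⟨-, hy⟩
  have : ¬ b ≤ inner ℝ a y := hy
  exact (not_le.1 this).le

theorem centroid_mem_hex {S : Set (E 2)} (hS : S ⊆ hex) (hSm : MeasurableSet S)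
    (hSv : volume S = ENNReal.ofReal (1 / 2)) : centroid S ∈ hex := by
  apply convex_hex.set_average_mem isClosed_hex
  · rw [hSv]; exact ofReal_half_ne_zero
  · rw [hSv]; exact ENNReal.ofReal_ne_top
  · rw [ae_restrict_iff' hSm]
    exact Filter.Eventually.of_forall fun x hx => hS hx
  · exact integrableOn_hex continuous_id hS

theorem measurableSet_inter_of_isAdmissible {H : Set (E 2)} (hH : IsAdmissible hex (1 / 2) H) :
    MeasurableSet (hex ∩ H) := by
  obtain ⟨a, b, ha, rfl, hv⟩ := isAdmissible_iff.1 hH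
  exact (isClosed_cap a b).measurableSet

theorem smul_centre_mem_flotation {c : E 2} (hc : c ∈ centres) :
    (3 / 4 : ℝ) • c ∈ bodyOfFlotation hex (1 / 2) := by
  obtain ⟨H', hH', rfl⟩ := hc
  have hm := measurableSet_inter_of_isAdmissible hH'
  rw [bodyOfFlotation, mem_iInter₂]
  intro H hH
  obtain ⟨a, b, ha, rfl, hv⟩ := isAdmissible_iff.1 hH
  obtain ⟨hb, -, hi⟩ := good_of_volume ha hv
  apply mem_closure_diff hb
  · have h1 := centroid_mem_hex inter_subset_left hm hH'.2
    have := convex_hex (interior_subset zero_mem_interior_hex) h1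
      (by norm_num : (0:ℝ) ≤ 1 / 4) (by norm_num : (0:ℝ) ≤ 3 / 4) (by norm_num)
    simpa using this
  · have h2 := inner_centroid_le hv inter_subset_left hH'.2
    rw [hi] at h2
    rw [inner_smul_right]
    linarith

theorem convex_bodyOfFlotation : Convex ℝ (bodyOfFlotation hex (1 / 2)) := by
  apply convex_iInter₂
  intro H hH
  obtain ⟨a, b, ha, rfl, hv⟩ := isAdmissible_iff.1 hH
  apply Convex.closure
  have : hex \ {x : E 2 | b ≤ inner ℝ a x} = hex ∩ {x : E 2 | inner ℝ a x < b} := by
    ext x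
    simp [mem_sdiff, not_le]
  rw [this]
  apply convex_hex.inter
  exact convex_halfSpace_lt ((innerSL ℝ a : E 2 →L[ℝ] ℝ) : E 2 →ₗ[ℝ] ℝ).isLinear b

/-- The body of buoyancy is `4/3` times the body of flotation. -/
theorem image_flotation :
    (fun x : E 2 => (0 : E 2) + (4 / 3 : ℝ) • (x - 0)) '' bodyOfFlotation hex (1 / 2) =
      bodyOfBuoyancy hex (1 / 2) := by
  apply Subset.antisymm
  · rintro _ ⟨x, hx, rfl⟩
    simp only [sub_zero, zero_add]
    by_contra hcon
    obtain ⟨f, u, hfu, huf⟩ := geometric_hahn_banach_closed_point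
      (convex_convexHull ℝ centres) isCompact_bodyOfBuoyancy.isClosed hcon
    set a := (InnerProductSpace.toDual ℝ (E 2)).symm f with hadef
    have hf : ∀ y, f y = inner ℝ a y := by
      intro y
      rw [hadef, InnerProductSpace.toDual_symm_apply]
    have ha : a ≠ 0 := by
      intro h0
      obtain ⟨c, hc⟩ : centres.Nonempty :=
        ⟨_, arc_subset_centres ⟨1, ⟨le_rfl, by norm_num⟩, rfl⟩⟩
      have h1 := hfu c (subset_convexHull ℝ _ hc)
      rw [hf, h0, inner_zero_left] at h1 huf
      linarith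
    obtain ⟨b, hb, hv, hc, hi⟩ := good_of_ne_zero ha
    have h1 : centroid (cap a b) ∈ centres := mem_centres_iff.2 ⟨a, b, ha, hv, rfl⟩
    have h2 := hfu _ (subset_convexHull ℝ _ h1)
    rw [hf, hi] at h2
    rw [bodyOfFlotation, mem_iInter₂] at hx
    have h3 := inner_le_of_mem_closure
      (hx {y | b ≤ inner ℝ a y} (isAdmissible_iff.2 ⟨a, b, ha, rfl, hv⟩))
    rw [hf, inner_smul_right] at huf
    linarith
  · apply convexHull_min
    · intro c hc
      refine ⟨(3 / 4 : ℝ) • c, smul_centre_mem_flotation hc, ?_⟩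
      simp only [sub_zero, zero_add, smul_smul]
      norm_num
    · have h1 : (fun x : E 2 => (0 : E 2) + (4 / 3 : ℝ) • (x - 0)) = fun x => (4 / 3 : ℝ) • x := by
        ext x; simp
      rw [h1]
      exact convex_bodyOfFlotation.smul (4 / 3)

theorem areHomothetic_hex :
    AreHomothetic (bodyOfFlotation hex (1 / 2)) (bodyOfBuoyancy hex (1 / 2)) :=
  ⟨0, 4 / 3, by norm_num, image_flotation⟩

theorem half_lt_volume_hex : ENNReal.ofReal (1 / 2) < volume hex := by
  have h1 : volume (cap (!₂[1, 2] : E 2) (1 + 2 - 2)) = ENNReal.ofReal (1 / 2) :=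
    volume_cap le_rfl (by norm_num) (by norm_num) _ rfl rfl
  have h2 := volume_cap_lt (a := (!₂[1, 2] : E 2)) (b1 := 0) (b2 := 1 + 2 - 2) (by norm_num)
    (by norm_num) (nonempty_cap_of_volume h1)
  rw [h1] at h2
  exact h2.trans_le (measure_mono (cap_subset _ _))

theorem not_isEllipsoid_hex : ¬ IsEllipsoid hex := by
  rintro ⟨L, c, hK⟩
  set F : E 2 → E 2 := fun x => c + L x with hF
  have hLc : Continuous L := LinearMap.continuous_of_finiteDimensional (L : E 2 →ₗ[ℝ] E 2)
  have hopen : IsOpenMap F := by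
    have h1 : IsOpenMap L := by
      have := (L.toContinuousLinearEquiv).isOpenMap
      exact this
    exact (isOpenMap_add_left c).comp h1
  set p : E 2 := !₂[1, 0] with hp
  set q : E 2 := !₂[0, 1] with hq
  have hpK : p ∈ hex := by
    change |(1:ℝ)| ≤ 1 ∧ |(0:ℝ)| ≤ 1 ∧ |(1:ℝ) + 0| ≤ 1
    norm_num
  have hqK : q ∈ hex := by
    change |(0:ℝ)| ≤ 1 ∧ |(1:ℝ)| ≤ 1 ∧ |(0:ℝ) + 1| ≤ 1
    norm_num
  rw [hK] at hpK hqK
  obtain ⟨u, hu, hup⟩ := hpK
  obtain ⟨v, hv, hvq⟩ := hqK
  have huv : u ≠ v := by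
    intro h
    rw [h, hvq] at hup
    have : (0:ℝ) = 1 := congrArg (fun w : E 2 => w 0) hup
    norm_num at this
  have hmid := strictConvex_closedBall ℝ (0 : E 2) 1 hu hv huv
    (by norm_num : (0:ℝ) < 1 / 2) (by norm_num : (0:ℝ) < 1 / 2) (by norm_num)
  have hmidK : F ((1 / 2 : ℝ) • u + (1 / 2 : ℝ) • v) ∈ interior hex := by
    rw [hK]
    exact hopen.image_interior_subset _ ⟨_, hmid, rfl⟩
  have hval : F ((1 / 2 : ℝ) • u + (1 / 2 : ℝ) • v) = (1 / 2 : ℝ) • p + (1 / 2 : ℝ) • q := by
    rw [← hup, ← hvq, hF]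
    simp only [map_add, map_smul, smul_add]
    have : c = (1 / 2 : ℝ) • c + (1 / 2 : ℝ) • c := by
      rw [← add_smul]; norm_num
    nth_rewrite 1 [this]
    abel
  rw [hval] at hmidK
  -- move a little outwards
  have hcont : Filter.Tendsto (fun t : ℝ => t • ((1 / 2 : ℝ) • p + (1 / 2 : ℝ) • q))
      (nhdsWithin 1 (Ioi 1)) (nhds ((1 / 2 : ℝ) • p + (1 / 2 : ℝ) • q)) := by
    have h1 : Filter.Tendsto (fun t : ℝ => t • ((1 / 2 : ℝ) • p + (1 / 2 : ℝ) • q))
      (nhds 1) (nhds ((1 : ℝ) • ((1 / 2 : ℝ) • p + (1 / 2 : ℝ) • q))) :=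
      (continuous_id.smul continuous_const).tendsto 1
    rw [one_smul] at h1
    exact h1.mono_left nhdsWithin_le_nhds
  have hev : ∀ᶠ t : ℝ in nhdsWithin 1 (Ioi 1),
      t • ((1 / 2 : ℝ) • p + (1 / 2 : ℝ) • q) ∈ hex :=
    hcont (mem_interior_iff_mem_nhds.1 hmidK)
  have hev2 : ∀ᶠ t : ℝ in nhdsWithin 1 (Ioi 1), 1 < t := self_mem_nhdsWithin
  obtain ⟨t, ht, ht1⟩ := (Filter.Eventually.and hev hev2).exists
  have ht' : t • ((1 / 2 : ℝ) • p + (1 / 2 : ℝ) • q) ∈ hex := ht
  have h3 := ht'.2.2
  have e0 : (t • ((1 / 2 : ℝ) • p + (1 / 2 : ℝ) • q)) 0 = t / 2 := by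
    change t * ((1 / 2) * 1 + (1 / 2) * 0) = t / 2
    ring
  have e1 : (t • ((1 / 2 : ℝ) • p + (1 / 2 : ℝ) • q)) 1 = t / 2 := by
    change t * ((1 / 2) * 0 + (1 / 2) * 1) = t / 2
    ring
  rw [e0, e1, abs_le] at h3
  linarith [h3.2]

end Pool.Agent.Lib.MP_56fddc_gt
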