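import Mathlib

/-!
# Integrals over right triangles in `ℝ × ℝ`
-/

open MeasureTheory Set

namespace Pool.Agent.Lib.MP_56fddc_gt

/-- The closed right triangle with legs `β` (first coordinate) and `α` (second coordinate),
described by `α p₁ + β p₂ ≤ α β`. -/
def tri (α β : ℝ) : Set (ℝ × ℝ) := {p | 0 ≤ p.1 ∧ 0 ≤ p.2 ∧ α * p.1 + β * p.2 ≤ α * β}

/-- The half-open right triangle. -/
def triO (α β : ℝ) : Set (ℝ × ℝ) := {p | 0 ≤ p.1 ∧ 0 ≤ p.2 ∧ α * p.1 + β * p.2 < α * β}

theorem isClosed_tri (α β : ℝ) : IsClosed (tri α β) := by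
  have h1 : IsClosed {p : ℝ × ℝ | 0 ≤ p.1} := isClosed_le continuous_const continuous_fst
  have h2 : IsClosed {p : ℝ × ℝ | 0 ≤ p.2} := isClosed_le continuous_const continuous_snd
  have h3 : IsClosed {p : ℝ × ℝ | α * p.1 + β * p.2 ≤ α * β} :=
    isClosed_le (by fun_prop) continuous_const
  exact h1.inter (h2.inter h3)

theorem triO_subset_tri (α β : ℝ) : triO α β ⊆ tri α β := fun _ hp => ⟨hp.1, hp.2.1, hp.2.2.le⟩

theorem tri_subset {α β : ℝ} (hα : 0 < α) (hβ : 0 < β) : tri α β ⊆ Icc 0 β ×ˢ Icc 0 α := by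
  rintro ⟨x, y⟩ ⟨hx, hy, h⟩
  simp only at hx hy h
  refine ⟨⟨hx, ?_⟩, ⟨hy, ?_⟩⟩
  · simp only
    by_contra hcon
    push Not at hcon
    nlinarith [mul_nonneg hβ.le hy]
  · simp only
    by_contra hcon
    push Not at hcon
    nlinarith [mul_nonneg hα.le hx]

theorem isCompact_tri {α β : ℝ} (hα : 0 < α) (hβ : 0 < β) : IsCompact (tri α β) :=
  (isCompact_Icc.prod isCompact_Icc).of_isClosed_subset (isClosed_tri α β) (tri_subset hα hβ)

theorem measurableSet_triO (α β : ℝ) : MeasurableSet (triO α β) := by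
  have h1 : MeasurableSet {p : ℝ × ℝ | 0 ≤ p.1} :=
    (isClosed_le continuous_const continuous_fst).measurableSet
  have h2 : MeasurableSet {p : ℝ × ℝ | 0 ≤ p.2} :=
    (isClosed_le continuous_const continuous_snd).measurableSet
  have h3 : MeasurableSet {p : ℝ × ℝ | α * p.1 + β * p.2 < α * β} :=
    (isOpen_lt (by fun_prop) continuous_const).measurableSet
  exact h1.inter (h2.inter h3)

/-- Fubini for a planar region whose vertical sections are, up to null sets, `Ioc 0 (h x)` for
`x ∈ Icc 0 b` and empty otherwise. -/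
theorem setIntegral_region {b : ℝ} (hb : 0 ≤ b) (h : ℝ → ℝ) (hh : ∀ x ∈ Icc 0 b, 0 ≤ h x)
    (S : Set (ℝ × ℝ)) (hS : MeasurableSet S) (g : ℝ × ℝ → ℝ) (hg : IntegrableOn g S)
    (hin : ∀ x ∈ Icc 0 b, (Prod.mk x ⁻¹' S : Set ℝ) =ᵐ[volume] Ioc 0 (h x))
    (hout : ∀ x, x ∉ Icc 0 b → Prod.mk x ⁻¹' S = ∅) :
    ∫ p in S, g p = ∫ x in (0:ℝ)..b, ∫ y in (0:ℝ)..(h x), g (x, y) := by
  rw [← integral_indicator hS]
  rw [Measure.volume_eq_prod]
  rw [integral_prod _ (by
    rw [← Measure.volume_eq_prod]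
    exact (integrable_indicator_iff hS).2 hg)]
  have key : ∀ x : ℝ, ∫ y, S.indicator g (x, y) =
      (Icc 0 b).indicator (fun x => ∫ y in (0:ℝ)..(h x), g (x, y)) x := by
    intro x
    have h1 : (fun y => S.indicator g (x, y)) =
        (Prod.mk x ⁻¹' S).indicator (fun y => g (x, y)) := by
      ext y
      by_cases hy : (x, y) ∈ S
      · rw [indicator_of_mem hy, indicator_of_mem (show y ∈ Prod.mk x ⁻¹' S from hy)]
      · rw [indicator_of_notMem hy, indicator_of_notMem (show y ∉ Prod.mk x ⁻¹' S from hy)]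
    rw [h1, integral_indicator (measurable_prodMk_left hS)]
    by_cases hx : x ∈ Icc 0 b
    · rw [indicator_of_mem hx, setIntegral_congr_set (hin x hx),
        intervalIntegral.integral_of_le (hh x hx)]
    · rw [indicator_of_notMem hx, hout x hx]
      simp
  simp_rw [key]
  rw [integral_indicator measurableSet_Icc, integral_Icc_eq_integral_Ioc,
    intervalIntegral.integral_of_le hb]

theorem setIntegral_tri {α β : ℝ} (hα : 0 < α) (hβ : 0 < β) (g : ℝ × ℝ → ℝ)
    (hg : Continuous g) :
    ∫ p in tri α β, g p = ∫ x in (0:ℝ)..β, ∫ y in (0:ℝ)..(α - α * x / β), g (x, y) := by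
  apply setIntegral_region hβ.le (fun x => α - α * x / β)
  · intro x hx
    rw [sub_nonneg, div_le_iff₀ hβ]
    nlinarith [hx.2]
  · exact (isClosed_tri α β).measurableSet
  · exact hg.continuousOn.integrableOn_compact (isCompact_tri hα hβ)
  · intro x hx
    have : (Prod.mk x ⁻¹' tri α β : Set ℝ) = Icc 0 (α - α * x / β) := by
      ext y
      simp only [tri, mem_preimage, mem_ofPred_eq, mem_Icc]
      constructor
      · rintro ⟨-, hy, h⟩
        refine ⟨hy, ?_⟩
        rw [le_sub_iff_add_le, ← le_sub_iff_add_le', div_le_iff₀ hβ]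
        nlinarith
      · rintro ⟨hy, h⟩
        refine ⟨hx.1, hy, ?_⟩
        rw [le_sub_iff_add_le, ← le_sub_iff_add_le', div_le_iff₀ hβ] at h
        nlinarith
    rw [this]
    exact Ioc_ae_eq_Icc.symm
  · intro x hx
    ext y
    simp only [mem_preimage, mem_empty_iff_false, iff_false]
    intro hy
    exact hx (tri_subset hα hβ hy).1

theorem setIntegral_triO {α β : ℝ} (hα : 0 < α) (hβ : 0 < β) (g : ℝ × ℝ → ℝ)
    (hg : Continuous g) :
    ∫ p in triO α β, g p = ∫ x in (0:ℝ)..β, ∫ y in (0:ℝ)..(α - α * x / β), g (x, y) := by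
  apply setIntegral_region hβ.le (fun x => α - α * x / β)
  · intro x hx
    rw [sub_nonneg, div_le_iff₀ hβ]
    nlinarith [hx.2]
  · exact measurableSet_triO α β
  · exact (hg.continuousOn.integrableOn_compact (isCompact_tri hα hβ)).mono_set
      (triO_subset_tri α β)
  · intro x hx
    have : (Prod.mk x ⁻¹' triO α β : Set ℝ) = Ico 0 (α - α * x / β) := by
      ext y
      simp only [triO, mem_preimage, mem_ofPred_eq, mem_Ico]
      constructor
      · rintro ⟨-, hy, h⟩
        refine ⟨hy, ?_⟩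
        rw [lt_sub_iff_add_lt, ← lt_sub_iff_add_lt', div_lt_iff₀ hβ]
        nlinarith
      · rintro ⟨hy, h⟩
        refine ⟨hx.1, hy, ?_⟩
        rw [lt_sub_iff_add_lt, ← lt_sub_iff_add_lt', div_lt_iff₀ hβ] at h
        nlinarith
    rw [this]
    exact Ico_ae_eq_Ioc
  · intro x hx
    ext y
    simp only [mem_preimage, mem_empty_iff_false, iff_false]
    intro hy
    exact hx (tri_subset hα hβ (triO_subset_tri α β hy)).1

theorem iterated_one {α β : ℝ} (hβ : 0 < β) :
    ∫ x in (0:ℝ)..β, ∫ _y in (0:ℝ)..(α - α * x / β), (1:ℝ) = α * β / 2 := by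
  have h1 : ∀ x : ℝ, ∫ _y in (0:ℝ)..(α - α * x / β), (1:ℝ) = α - (α / β) * x := by
    intro x; rw [intervalIntegral.integral_const]; simp; ring
  simp_rw [h1]
  rw [intervalIntegral.integral_sub (by
    apply Continuous.intervalIntegrable; fun_prop) (by
    apply Continuous.intervalIntegrable; fun_prop), intervalIntegral.integral_const,
    intervalIntegral.integral_const_mul, integral_id]
  simp
  field_simp
  ring

theorem iterated_fst {α β : ℝ} (hβ : 0 < β) :
    ∫ x in (0:ℝ)..β, ∫ _y in (0:ℝ)..(α - α * x / β), x = α * β ^ 2 / 6 := by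
  have h1 : ∀ x : ℝ, ∫ _y in (0:ℝ)..(α - α * x / β), x = α * x - (α / β) * x ^ 2 := by
    intro x; rw [intervalIntegral.integral_const]; simp; ring
  simp_rw [h1]
  rw [intervalIntegral.integral_sub (by
    apply Continuous.intervalIntegrable; fun_prop) (by
    apply Continuous.intervalIntegrable; fun_prop), intervalIntegral.integral_const_mul,
    intervalIntegral.integral_const_mul, integral_id, integral_pow]
  field_simp
  ring

theorem iterated_snd {α β : ℝ} (hβ : 0 < β) :
    ∫ x in (0:ℝ)..β, ∫ y in (0:ℝ)..(α - α * x / β), y = α ^ 2 * β / 6 := by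
  have h1 : ∀ x : ℝ, ∫ y in (0:ℝ)..(α - α * x / β), y =
      α ^ 2 / 2 - (α ^ 2 / β) * x + (α ^ 2 / (2 * β ^ 2)) * x ^ 2 := by
    intro x; rw [integral_id]; field_simp; ring
  simp_rw [h1]
  rw [intervalIntegral.integral_add (by
    apply Continuous.intervalIntegrable; fun_prop) (by
    apply Continuous.intervalIntegrable; fun_prop), intervalIntegral.integral_sub (by
    apply Continuous.intervalIntegrable; fun_prop) (by
    apply Continuous.intervalIntegrable; fun_prop), intervalIntegral.integral_const_mul,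
    intervalIntegral.integral_const_mul, integral_id, integral_pow,
    intervalIntegral.integral_const]
  simp
  field_simp
  ring

/-- The truncated triangle. -/
def quad (α β : ℝ) : Set (ℝ × ℝ) := tri α β ∩ {p | 1 ≤ p.1 + p.2}

theorem measurableSet_quad (α β : ℝ) : MeasurableSet (quad α β) :=
  (isClosed_tri α β).measurableSet.inter
    (isClosed_le continuous_const (continuous_fst.add continuous_snd)).measurableSet

theorem tri_eq_union {α β : ℝ} (hα : 1 ≤ α) (hβ : 1 ≤ β) :
    tri α β = quad α β ∪ triO 1 1 := by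
  ext ⟨x, y⟩
  simp only [quad, tri, triO, mem_union, mem_inter_iff, mem_ofPred_eq]
  constructor
  · rintro ⟨hx, hy, h⟩
    by_cases h1 : 1 ≤ x + y
    · exact Or.inl ⟨⟨hx, hy, h⟩, h1⟩
    · refine Or.inr ⟨hx, hy, ?_⟩
      push Not at h1
      linarith
  · rintro (h | ⟨hx, hy, h⟩)
    · exact h.1
    · refine ⟨hx, hy, ?_⟩
      have hxy : x + y ≤ 1 := by linarith
      have hx1 : x ≤ 1 := by linarith
      nlinarith [mul_nonneg hx (sub_nonneg.2 hβ), mul_nonneg hy (sub_nonneg.2 hα),
        mul_nonneg hx hy, mul_nonneg (sub_nonneg.2 hα) (sub_nonneg.2 hβ)]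

theorem disjoint_quad_triO (α β : ℝ) : Disjoint (quad α β) (triO 1 1) := by
  rw [Set.disjoint_left]
  rintro ⟨x, y⟩ h1 h2
  have h3 : 1 ≤ x + y := h1.2
  have h4 : 1 * x + 1 * y < 1 * 1 := h2.2.2
  linarith

theorem setIntegral_quad {α β : ℝ} (hα : 1 ≤ α) (hβ : 1 ≤ β) (g : ℝ × ℝ → ℝ)
    (hg : Continuous g) :
    ∫ p in quad α β, g p = (∫ p in tri α β, g p) - ∫ p in triO 1 1, g p := by
  have hα' : 0 < α := by linarith
  have hβ' : 0 < β := by linarith
  have hint : IntegrableOn g (tri α β) :=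
    hg.continuousOn.integrableOn_compact (isCompact_tri hα' hβ')
  have h1 : IntegrableOn g (quad α β) := hint.mono_set inter_subset_left
  have h2 : IntegrableOn g (triO 1 1) := by
    apply hint.mono_set
    rw [tri_eq_union hα hβ]
    exact subset_union_right
  rw [tri_eq_union hα hβ, setIntegral_union (disjoint_quad_triO α β) (measurableSet_triO 1 1) h1 h2]
  ring

theorem quad_one {α β : ℝ} (hα : 1 ≤ α) (hβ : 1 ≤ β) :
    ∫ _p in quad α β, (1:ℝ) = α * β / 2 - 1 / 2 := by
  rw [setIntegral_quad hα hβ _ continuous_const,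
    setIntegral_tri (by linarith) (by linarith) _ continuous_const,
    setIntegral_triO one_pos one_pos _ continuous_const,
    iterated_one (by linarith), iterated_one one_pos]
  ring

theorem quad_fst {α β : ℝ} (hα : 1 ≤ α) (hβ : 1 ≤ β) :
    ∫ p in quad α β, p.1 = α * β ^ 2 / 6 - 1 / 6 := by
  rw [setIntegral_quad hα hβ _ continuous_fst,
    setIntegral_tri (by linarith) (by linarith) _ continuous_fst,
    setIntegral_triO one_pos one_pos _ continuous_fst,
    iterated_fst (by linarith), iterated_fst one_pos]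
  ring

theorem quad_snd {α β : ℝ} (hα : 1 ≤ α) (hβ : 1 ≤ β) :
    ∫ p in quad α β, p.2 = α ^ 2 * β / 6 - 1 / 6 := by
  rw [setIntegral_quad hα hβ _ continuous_snd,
    setIntegral_tri (by linarith) (by linarith) _ continuous_snd,
    setIntegral_triO one_pos one_pos _ continuous_snd,
    iterated_snd (by linarith), iterated_snd one_pos]
  ring

end Pool.Agent.Lib.MP_56fddc_gt
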