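import Pool.Agent.Lib.MP_56fddc_gt.Defs
import Pool.Agent.Lib.MP_56fddc_gt.Tri

/-!
# The affine regular hexagon and its caps of area `1/2`
-/

open MeasureTheory Set

namespace Pool.Agent.Lib.MP_56fddc_gt

/-- The hexagon with vertices `±(1,0), ±(0,1), ±(1,-1)`. -/
def hex : Set (E 2) := {x | |x 0| ≤ 1 ∧ |x 1| ≤ 1 ∧ |x 0 + x 1| ≤ 1}

theorem inner_two (a x : E 2) : inner ℝ a x = a 0 * x 0 + a 1 * x 1 := by
  rw [PiLp.inner_apply, Fin.sum_univ_two]
  simp [mul_comm]

theorem continuous_coord (i : Fin 2) : Continuous (fun x : E 2 => x i) :=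
  (EuclideanSpace.proj (𝕜 := ℝ) i).continuous

theorem convex_hex : Convex ℝ hex := by
  intro x hx y hy s t hs ht hst
  obtain ⟨hx0, hx1, hx2⟩ := hx
  obtain ⟨hy0, hy1, hy2⟩ := hy
  rw [abs_le] at hx0 hx1 hx2 hy0 hy1 hy2
  refine ⟨?_, ?_, ?_⟩ <;> rw [abs_le] <;> simp only [PiLp.add_apply, PiLp.smul_apply, smul_eq_mul]
  · constructor <;> nlinarith
  · constructor <;> nlinarith
  · constructor <;> nlinarith

theorem isClosed_hex : IsClosed hex := by
  have h1 : IsClosed {x : E 2 | |x 0| ≤ 1} :=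
    isClosed_le (continuous_coord 0).abs continuous_const
  have h2 : IsClosed {x : E 2 | |x 1| ≤ 1} :=
    isClosed_le (continuous_coord 1).abs continuous_const
  have h3 : IsClosed {x : E 2 | |x 0 + x 1| ≤ 1} :=
    isClosed_le ((continuous_coord 0).add (continuous_coord 1)).abs continuous_const
  exact h1.inter (h2.inter h3)

theorem isCompact_hex : IsCompact hex := by
  apply Metric.isCompact_of_isClosed_isBounded isClosed_hex
  rw [isBounded_iff_forall_norm_le]
  refine ⟨2, fun x hx => ?_⟩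
  rw [EuclideanSpace.norm_eq, Fin.sum_univ_two, Real.sqrt_le_left (by norm_num)]
  obtain ⟨h0, h1, -⟩ := hx
  rw [Real.norm_eq_abs, Real.norm_eq_abs]
  nlinarith [abs_nonneg (x 0), abs_nonneg (x 1)]

/-- The open hexagon. -/
theorem isOpen_hexO : IsOpen {x : E 2 | |x 0| < 1 ∧ |x 1| < 1 ∧ |x 0 + x 1| < 1} := by
  have h1 : IsOpen {x : E 2 | |x 0| < 1} :=
    isOpen_lt (continuous_coord 0).abs continuous_const
  have h2 : IsOpen {x : E 2 | |x 1| < 1} :=
    isOpen_lt (continuous_coord 1).abs continuous_const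
  have h3 : IsOpen {x : E 2 | |x 0 + x 1| < 1} :=
    isOpen_lt ((continuous_coord 0).add (continuous_coord 1)).abs continuous_const
  exact h1.inter (h2.inter h3)

theorem mem_interior_hex {x : E 2} (h : |x 0| < 1 ∧ |x 1| < 1 ∧ |x 0 + x 1| < 1) :
    x ∈ interior hex :=
  mem_interior.2 ⟨_, fun _ hy => ⟨hy.1.le, hy.2.1.le, hy.2.2.le⟩, isOpen_hexO, h⟩

theorem zero_mem_interior_hex : (0 : E 2) ∈ interior hex := by
  apply mem_interior_hex; simp

theorem isConvexBody_hex : IsConvexBody hex :=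
  ⟨isCompact_hex, convex_hex, ⟨0, zero_mem_interior_hex⟩⟩

/-- Coordinates. -/
def toPair (x : E 2) : ℝ × ℝ := (x 0, x 1)

theorem measurePreserving_toPair : MeasurePreserving toPair volume volume := by
  have h := (volume_preserving_finTwoArrow ℝ).comp (PiLp.volume_preserving_ofLp (Fin 2))
  exact h

theorem measurableEmbedding_toPair : MeasurableEmbedding toPair := by
  have h := (MeasurableEquiv.finTwoArrow (α := ℝ)).measurableEmbedding.comp
    (MeasurableEquiv.toLp 2 (Fin 2 → ℝ)).symm.measurableEmbedding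
  exact h

/-- Reflected coordinates `x ↦ (1 - x₀, 1 - x₁)`. -/
def toPair' (x : E 2) : ℝ × ℝ := (1 - x 0, 1 - x 1)

theorem measurePreserving_toPair' : MeasurePreserving toPair' volume volume := by
  have h1 : MeasurePreserving (fun p : ℝ × ℝ => (1, 1) - p) volume volume :=
    Measure.measurePreserving_sub_left volume ((1 : ℝ), (1 : ℝ))
  exact h1.comp measurePreserving_toPair

theorem measurableEmbedding_toPair' : MeasurableEmbedding toPair' := by
  have h1 : MeasurableEmbedding (fun p : ℝ × ℝ => (1, 1) - p) :=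
    (Homeomorph.subLeft ((1 : ℝ), (1 : ℝ))).measurableEmbedding
  exact h1.comp measurableEmbedding_toPair

/-- The cap of the hexagon cut off by `⟪a, x⟫ ≥ b`. -/
def cap (a : E 2) (b : ℝ) : Set (E 2) := hex ∩ {x | b ≤ inner ℝ a x}

theorem cap_subset (a : E 2) (b : ℝ) : cap a b ⊆ hex := inter_subset_left

theorem isClosed_cap (a : E 2) (b : ℝ) : IsClosed (cap a b) :=
  isClosed_hex.inter (isClosed_le continuous_const (continuous_const.inner continuous_id))

theorem isCompact_cap (a : E 2) (b : ℝ) : IsCompact (cap a b) :=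
  isCompact_hex.of_isClosed_subset (isClosed_cap a b) inter_subset_left

theorem volume_hex_lt_top : volume hex < ⊤ := isCompact_hex.measure_lt_top

theorem volume_cap_lt_top (a : E 2) (b : ℝ) : volume (cap a b) < ⊤ :=
  (isCompact_cap a b).measure_lt_top

theorem integrableOn_hex {F : Type*} [NormedAddCommGroup F] {g : E 2 → F} (hg : Continuous g)
    {S : Set (E 2)} (hS : S ⊆ hex) : IntegrableOn g S :=
  (hg.continuousOn.integrableOn_compact isCompact_hex).mono_set hS

/-- Coordinates of the centroid. -/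
theorem centroid_apply {S : Set (E 2)} (hS : S ⊆ hex) (i : Fin 2) :
    centroid S i = (volume.real S)⁻¹ * ∫ x in S, x i := by
  have h := (EuclideanSpace.proj (𝕜 := ℝ) i).integral_comp_comm
    (integrableOn_hex continuous_id hS : Integrable (fun x : E 2 => x) (volume.restrict S))
  rw [centroid, setAverage_eq, PiLp.smul_apply, smul_eq_mul]
  congr 1
  exact h.symm

theorem cap_eq_preimage {α β : ℝ} (hα : 1 ≤ α) (hβ : 1 ≤ β) (hαβ : α * β = 2) (a : E 2)
    (ha0 : a 0 = α) (ha1 : a 1 = β) : cap a (α + β - 2) = toPair' ⁻¹' quad α β := by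
  ext x
  simp only [cap, hex, quad, tri, toPair', mem_inter_iff, mem_ofPred_eq, mem_preimage, inner_two,
    ha0, ha1, abs_le]
  constructor
  · rintro ⟨⟨⟨h1, h2⟩, ⟨h3, h4⟩, h5, h6⟩, h7⟩
    refine ⟨⟨by linarith, by linarith, ?_⟩, by linarith⟩
    rw [hαβ]; nlinarith
  · rintro ⟨⟨h1, h2, h3⟩, h4⟩
    rw [hαβ] at h3
    have h5 : (1 - x 0) + (1 - x 1) ≤ 2 := by nlinarith
    refine ⟨⟨⟨by linarith, by linarith⟩, ⟨by linarith, by linarith⟩, by linarith, by linarith⟩, ?_⟩
    nlinarith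

theorem volume_real_cap {α β : ℝ} (hα : 1 ≤ α) (hβ : 1 ≤ β) (hαβ : α * β = 2) (a : E 2)
    (ha0 : a 0 = α) (ha1 : a 1 = β) : volume.real (cap a (α + β - 2)) = 1 / 2 := by
  have h1 : ∫ _p in quad α β, (1:ℝ) = volume.real (quad α β) := by
    rw [setIntegral_const]; simp
  rw [cap_eq_preimage hα hβ hαβ a ha0 ha1, Measure.real,
    measurePreserving_toPair'.measure_preimage (measurableSet_quad α β).nullMeasurableSet,
    ← Measure.real, ← h1, quad_one hα hβ, hαβ]
  norm_num

theorem volume_cap {α β : ℝ} (hα : 1 ≤ α) (hβ : 1 ≤ β) (hαβ : α * β = 2) (a : E 2)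
    (ha0 : a 0 = α) (ha1 : a 1 = β) : volume (cap a (α + β - 2)) = ENNReal.ofReal (1 / 2) := by
  rw [← volume_real_cap hα hβ hαβ a ha0 ha1, Measure.real,
    ENNReal.ofReal_toReal (volume_cap_lt_top _ _).ne]

theorem integral_cap_zero {α β : ℝ} (hα : 1 ≤ α) (hβ : 1 ≤ β) (hαβ : α * β = 2) (a : E 2)
    (ha0 : a 0 = α) (ha1 : a 1 = β) :
    ∫ x in cap a (α + β - 2), x 0 = 2 / 3 - β / 3 := by
  have h1 : ∫ x in toPair' ⁻¹' quad α β, (toPair' x).1 = ∫ p in quad α β, p.1 :=
    measurePreserving_toPair'.setIntegral_preimage_emb measurableEmbedding_toPair' Prod.fst _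
  have h2 : ∫ x in cap a (α + β - 2), (1 - x 0) = β / 3 - 1 / 6 := by
    rw [cap_eq_preimage hα hβ hαβ a ha0 ha1]
    refine h1.trans ?_
    rw [quad_fst hα hβ]
    have : α * β ^ 2 = 2 * β := by rw [pow_two, ← mul_assoc, hαβ]
    rw [this]; ring
  rw [integral_sub (integrableOn_hex continuous_const (cap_subset _ _))
    (integrableOn_hex (continuous_coord 0) (cap_subset _ _))] at h2
  rw [setIntegral_const, volume_real_cap hα hβ hαβ a ha0 ha1] at h2
  simp only [smul_eq_mul] at h2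
  linarith

theorem integral_cap_one {α β : ℝ} (hα : 1 ≤ α) (hβ : 1 ≤ β) (hαβ : α * β = 2) (a : E 2)
    (ha0 : a 0 = α) (ha1 : a 1 = β) :
    ∫ x in cap a (α + β - 2), x 1 = 2 / 3 - α / 3 := by
  have h1 : ∫ x in toPair' ⁻¹' quad α β, (toPair' x).2 = ∫ p in quad α β, p.2 :=
    measurePreserving_toPair'.setIntegral_preimage_emb measurableEmbedding_toPair' Prod.snd _
  have h2 : ∫ x in cap a (α + β - 2), (1 - x 1) = α / 3 - 1 / 6 := by
    rw [cap_eq_preimage hα hβ hαβ a ha0 ha1]
    refine h1.trans ?_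
    rw [quad_snd hα hβ]
    have : α ^ 2 * β = 2 * α := by rw [pow_two, mul_assoc, hαβ]; ring
    rw [this]; ring
  rw [integral_sub (integrableOn_hex continuous_const (cap_subset _ _))
    (integrableOn_hex (continuous_coord 1) (cap_subset _ _))] at h2
  rw [setIntegral_const, volume_real_cap hα hβ hαβ a ha0 ha1] at h2
  simp only [smul_eq_mul] at h2
  linarith

/-- The centroid of the basic cap. -/
theorem centroid_cap {α β : ℝ} (hα : 1 ≤ α) (hβ : 1 ≤ β) (hαβ : α * β = 2) (a : E 2)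
    (ha0 : a 0 = α) (ha1 : a 1 = β) :
    centroid (cap a (α + β - 2)) = !₂[4 / 3 - 2 * β / 3, 4 / 3 - 2 * α / 3] := by
  ext i
  rw [centroid_apply (cap_subset _ _), volume_real_cap hα hβ hαβ a ha0 ha1]
  fin_cases i
  · simp only [Fin.zero_eta, Fin.isValue]
    rw [integral_cap_zero hα hβ hαβ a ha0 ha1]
    simp; ring
  · simp only [Fin.mk_one, Fin.isValue]
    rw [integral_cap_one hα hβ hαβ a ha0 ha1]
    simp; ring

end Pool.Agent.Lib.MP_56fddc_gt
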