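import Pool.Agent.Lib.MP_56fddc_gt.Hex

/-!
# The order six symmetry of the hexagon, and the caps in all directions
-/

open MeasureTheory Set

namespace Pool.Agent.Lib.MP_56fddc_gt

/-- The affine symmetry of order six of the hexagon. -/
def rho (x : E 2) : E 2 := !₂[-x 1, x 0 + x 1]

/-- The adjoint of `rho`. -/
def rhoT (a : E 2) : E 2 := !₂[a 1, a 1 - a 0]

@[simp] theorem rho_zero (x : E 2) : rho x 0 = -x 1 := rfl
@[simp] theorem rho_one (x : E 2) : rho x 1 = x 0 + x 1 := rfl
@[simp] theorem rhoT_zero (x : E 2) : rhoT x 0 = x 1 := rfl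
@[simp] theorem rhoT_one (x : E 2) : rhoT x 1 = x 1 - x 0 := rfl

theorem ext_two {x y : E 2} (h0 : x 0 = y 0) (h1 : x 1 = y 1) : x = y := by
  ext i
  fin_cases i
  · exact h0
  · exact h1

theorem rho_six (x : E 2) : rho (rho (rho (rho (rho (rho x))))) = x := by
  apply ext_two
  · simp
  · simp

theorem inner_rho (a x : E 2) : inner ℝ a (rho x) = inner ℝ (rhoT a) x := by
  simp only [inner_two, rho_zero, rho_one, rhoT_zero, rhoT_one]
  ring

theorem rho_mem_hex {x : E 2} : rho x ∈ hex ↔ x ∈ hex := by
  simp only [hex, mem_ofPred_eq, rho_zero, rho_one, abs_neg]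
  have : -x 1 + (x 0 + x 1) = x 0 := by ring
  rw [this]
  tauto

theorem continuous_rho : Continuous rho := by
  refine (PiLp.continuous_toLp 2 (fun _ : Fin 2 => ℝ)).comp ?_
  refine continuous_pi fun i => ?_
  fin_cases i
  · exact (continuous_coord 1).neg
  · exact (continuous_coord 0).add (continuous_coord 1)

/-- `rho` as a homeomorphism. -/
def rhoHomeo : E 2 ≃ₜ E 2 where
  toFun := rho
  invFun x := rho (rho (rho (rho (rho x))))
  left_inv := rho_six
  right_inv := rho_six
  continuous_toFun := continuous_rho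
  continuous_invFun := continuous_rho.comp (continuous_rho.comp (continuous_rho.comp
    (continuous_rho.comp continuous_rho)))

theorem measurePreserving_pairMap :
    MeasurePreserving (fun p : ℝ × ℝ => (-p.2, p.1 + p.2)) volume volume := by
  have h1 : MeasurePreserving (fun p : ℝ × ℝ => p.swap) volume volume :=
    Measure.measurePreserving_swap
  have h2 : MeasurePreserving (fun p : ℝ × ℝ => (p.1, p.1 + p.2)) volume volume :=
    measurePreserving_prod_add volume volume
  have h3 : MeasurePreserving (fun p : ℝ × ℝ => (-p.1, p.2)) volume volume :=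
    (Measure.measurePreserving_neg (volume : Measure ℝ)).prod (MeasurePreserving.id volume)
  have h4 := h3.comp (h2.comp h1)
  convert h4 using 1
  ext p
  · rfl
  · simp [add_comm]

theorem measurePreserving_toPair_symm_comp :
    ∀ x : E 2, toPair (rho x) = (fun p : ℝ × ℝ => (-p.2, p.1 + p.2)) (toPair x) := fun _ => rfl

theorem measurePreserving_rho : MeasurePreserving rho volume volume := by
  refine ⟨continuous_rho.measurable, ?_⟩
  ext S hS
  rw [Measure.map_apply continuous_rho.measurable hS]
  -- transport to pairs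
  have hinj : Function.Injective toPair := measurableEmbedding_toPair.injective
  have h1 : ∀ T : Set (E 2), MeasurableSet T → volume T = volume (toPair '' T) := by
    intro T hT
    rw [← measurePreserving_toPair.measure_preimage
      ((measurableEmbedding_toPair.measurableSet_image.2 hT).nullMeasurableSet),
      preimage_image_eq _ hinj]
  rw [h1 _ (continuous_rho.measurable hS), h1 _ hS]
  rw [← measurePreserving_pairMap.measure_preimage
    ((measurableEmbedding_toPair.measurableSet_image.2 hS).nullMeasurableSet)]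
  congr 1
  ext p
  constructor
  · rintro ⟨x, hx, rfl⟩
    exact ⟨rho x, hx, rfl⟩
  · rintro ⟨x, hx, hxp⟩
    refine ⟨!₂[p.1, p.2], ?_, rfl⟩
    have : rho !₂[p.1, p.2] = x := hinj (by rw [hxp]; rfl)
    rw [mem_preimage, this]
    exact hx

theorem measurableEmbedding_rho : MeasurableEmbedding rho :=
  rhoHomeo.measurableEmbedding

theorem preimage_rho_cap (a : E 2) (b : ℝ) : rho ⁻¹' cap a b = cap (rhoT a) b := by
  ext x
  simp only [cap, mem_preimage, mem_inter_iff, mem_ofPred_eq, rho_mem_hex, inner_rho]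

theorem volume_cap_rhoT (a : E 2) (b : ℝ) : volume (cap (rhoT a) b) = volume (cap a b) := by
  rw [← preimage_rho_cap, measurePreserving_rho.measure_preimage
    (isClosed_cap a b).measurableSet.nullMeasurableSet]

theorem centroid_cap_rhoT (a : E 2) (b : ℝ) :
    centroid (cap a b) = rho (centroid (cap (rhoT a) b)) := by
  have h0 : ∫ x in cap a b, x 0 = - ∫ x in cap (rhoT a) b, x 1 := by
    have h : ∫ x in rho ⁻¹' cap a b, (rho x) 0 = ∫ y in cap a b, y 0 :=
      measurePreserving_rho.setIntegral_preimage_emb measurableEmbedding_rho (fun y => y 0) _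
    rw [preimage_rho_cap] at h
    rw [← h, ← integral_neg]
    rfl
  have h1 : ∫ x in cap a b, x 1 = (∫ x in cap (rhoT a) b, x 0) + ∫ x in cap (rhoT a) b, x 1 := by
    have h : ∫ x in rho ⁻¹' cap a b, (rho x) 1 = ∫ y in cap a b, y 1 :=
      measurePreserving_rho.setIntegral_preimage_emb measurableEmbedding_rho (fun y => y 1) _
    rw [preimage_rho_cap] at h
    rw [← h, ← integral_add (integrableOn_hex (continuous_coord 0) (cap_subset _ _))
      (integrableOn_hex (continuous_coord 1) (cap_subset _ _))]
    rfl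
  have hv : volume.real (cap (rhoT a) b) = volume.real (cap a b) := by
    rw [Measure.real, Measure.real, volume_cap_rhoT]
  apply ext_two
  · rw [rho_zero, centroid_apply (cap_subset _ _), centroid_apply (cap_subset _ _), hv, h0]
    ring
  · rw [rho_one, centroid_apply (cap_subset _ _), centroid_apply (cap_subset _ _),
      centroid_apply (cap_subset _ _), hv, h1]
    ring

/-- The basic arc of centroids. -/
def arc : Set (E 2) :=
  (fun α : ℝ => (!₂[4 / 3 - 2 * (2 / α) / 3, 4 / 3 - 2 * α / 3] : E 2)) '' Icc 1 2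

theorem isCompact_arc : IsCompact arc := by
  apply isCompact_Icc.image_of_continuousOn
  refine (PiLp.continuous_toLp 2 (fun _ : Fin 2 => ℝ)).comp_continuousOn ?_
  rw [continuousOn_pi]
  intro i
  fin_cases i
  · apply ContinuousOn.sub continuousOn_const
    apply ContinuousOn.div_const
    apply ContinuousOn.mul continuousOn_const
    apply ContinuousOn.div continuousOn_const continuousOn_id
    intro x hx
    have : (1:ℝ) ≤ x := hx.1
    simp only [id]
    linarith
  · apply ContinuousOn.sub continuousOn_const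
    apply ContinuousOn.div_const
    exact ContinuousOn.mul continuousOn_const continuousOn_id

/-- The set of all the centroids. -/
def cset : Set (E 2) :=
  arc ∪ rho '' arc ∪ (fun x => rho (rho x)) '' arc ∪ (fun x => rho (rho (rho x))) '' arc ∪
    (fun x => rho (rho (rho (rho x)))) '' arc ∪ (fun x => rho (rho (rho (rho (rho x))))) '' arc

theorem isCompact_cset : IsCompact cset := by
  have c1 := continuous_rho
  have c2 := c1.comp c1
  have c3 := c1.comp c2
  have c4 := c1.comp c3
  have c5 := c1.comp c4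
  exact ((((isCompact_arc.union (isCompact_arc.image c1)).union (isCompact_arc.image c2)).union
    (isCompact_arc.image c3)).union (isCompact_arc.image c4)).union (isCompact_arc.image c5)

theorem rho_mem_cset {x : E 2} (hx : x ∈ cset) : rho x ∈ cset := by
  rcases hx with ((((hx | ⟨y, hy, rfl⟩) | ⟨y, hy, rfl⟩) | ⟨y, hy, rfl⟩) | ⟨y, hy, rfl⟩) |
    ⟨y, hy, rfl⟩
  · exact Or.inl (Or.inl (Or.inl (Or.inl (Or.inr ⟨x, hx, rfl⟩))))
  · exact Or.inl (Or.inl (Or.inl (Or.inr ⟨y, hy, rfl⟩)))
  · exact Or.inl (Or.inl (Or.inr ⟨y, hy, rfl⟩))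
  · exact Or.inl (Or.inr ⟨y, hy, rfl⟩)
  · exact Or.inr ⟨y, hy, rfl⟩
  · refine Or.inl (Or.inl (Or.inl (Or.inl (Or.inl ?_))))
    rw [rho_six]
    exact hy

/-- What we want to know about the caps orthogonal to `a`. -/
def Good (a : E 2) : Prop :=
  ∃ b : ℝ, 0 < b ∧ volume (cap a b) = ENNReal.ofReal (1 / 2) ∧
    centroid (cap a b) ∈ cset ∧ inner ℝ a (centroid (cap a b)) = 4 / 3 * b

theorem good_of_good_rhoT {a : E 2} (h : Good (rhoT a)) : Good a := by
  obtain ⟨b, hb, hv, hc, hi⟩ := h
  refine ⟨b, hb, by rw [← volume_cap_rhoT]; exact hv, ?_, ?_⟩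
  · rw [centroid_cap_rhoT]; exact rho_mem_cset hc
  · rw [centroid_cap_rhoT, inner_rho]; exact hi

theorem good_basic {a : E 2} (h0 : 0 < a 0) (h1 : 0 < a 1) (h2 : a 0 ≤ 2 * a 1)
    (h3 : a 1 ≤ 2 * a 0) : Good a := by
  set α := Real.sqrt (2 * a 0 / a 1) with hα
  have hpos : 0 < 2 * a 0 / a 1 := by positivity
  have hαsq : α ^ 2 = 2 * a 0 / a 1 := Real.sq_sqrt hpos.le
  have hα0 : 0 < α := Real.sqrt_pos.2 hpos
  have hα1 : 1 ≤ α := by
    rw [hα, Real.one_le_sqrt, le_div_iff₀ h1]
    linarith
  have hα2 : α ≤ 2 := by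
    rw [hα, Real.sqrt_le_left (by norm_num), div_le_iff₀ h1]
    linarith
  set β := 2 / α with hβ
  have hβ1 : 1 ≤ β := by
    rw [hβ, le_div_iff₀ hα0]; linarith
  have hαβ : α * β = 2 := by
    rw [hβ]; field_simp
  set r := a 0 / α with hr
  have hr0 : 0 < r := by positivity
  have ha0 : a 0 = r * α := by rw [hr]; field_simp
  have ha1 : a 1 = r * β := by
    have h : a 1 * α ^ 2 = 2 * a 0 := by rw [hαsq]; field_simp
    rw [hr, hβ, div_mul_div_comm, eq_div_iff (by positivity)]
    nlinarith
  set a' : E 2 := !₂[α, β] with ha'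
  have ha'0 : a' 0 = α := rfl
  have ha'1 : a' 1 = β := rfl
  have hinner : ∀ x : E 2, inner ℝ a x = r * inner ℝ a' x := by
    intro x
    rw [inner_two, inner_two, ha0, ha1, ha'0, ha'1]
    ring
  have hcap : cap a (r * (α + β - 2)) = cap a' (α + β - 2) := by
    ext x
    simp only [cap, mem_inter_iff, mem_ofPred_eq, hinner]
    rw [mul_le_mul_iff_right₀ hr0]
  have hαβ2 : 2 < α + β := by nlinarith [sq_nonneg (α - β)]
  refine ⟨r * (α + β - 2), by nlinarith, ?_, ?_, ?_⟩
  · rw [hcap]
    exact volume_cap hα1 hβ1 hαβ a' ha'0 ha'1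
  · rw [hcap, centroid_cap hα1 hβ1 hαβ a' ha'0 ha'1]
    exact Or.inl (Or.inl (Or.inl (Or.inl (Or.inl ⟨α, ⟨hα1, hα2⟩, rfl⟩))))
  · rw [hcap, centroid_cap hα1 hβ1 hαβ a' ha'0 ha'1, hinner, inner_two, ha'0, ha'1]
    have e0 : (!₂[4 / 3 - 2 * β / 3, 4 / 3 - 2 * α / 3] : E 2) 0 = 4 / 3 - 2 * β / 3 := rfl
    have e1 : (!₂[4 / 3 - 2 * β / 3, 4 / 3 - 2 * α / 3] : E 2) 1 = 4 / 3 - 2 * α / 3 := rfl
    rw [e0, e1]
    have : α * (4 / 3 - 2 * β / 3) + β * (4 / 3 - 2 * α / 3) =
        4 / 3 * (α + β) - 4 / 3 * (α * β) := by ring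
    rw [this, hαβ]
    ring

theorem good_sector {a : E 2} (ha : a ≠ 0) (h2 : a 0 ≤ 2 * a 1) (h3 : a 1 ≤ 2 * a 0) :
    Good a := by
  have h0 : 0 ≤ a 0 := by linarith
  have h1 : 0 ≤ a 1 := by linarith
  rcases h0.eq_or_lt with h0' | h0'
  · exfalso
    apply ha
    apply ext_two
    · exact h0'.symm
    · have : a 1 ≤ 0 := by linarith
      exact le_antisymm this h1
  · exact good_basic h0' (by linarith) h2 h3

theorem rhoT_ne_zero {a : E 2} (ha : a ≠ 0) : rhoT a ≠ 0 := by
  intro h
  apply ha
  have h0 : rhoT a 0 = 0 := by rw [h]; rfl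
  have h1 : rhoT a 1 = 0 := by rw [h]; rfl
  rw [rhoT_zero] at h0
  rw [rhoT_one, h0] at h1
  apply ext_two
  · have : a 0 = 0 := by linarith
    exact this
  · exact h0

theorem good_of_ne_zero {a : E 2} (ha : a ≠ 0) : Good a := by
  have n1 := rhoT_ne_zero ha
  have n2 := rhoT_ne_zero n1
  have n3 := rhoT_ne_zero n2
  have n4 := rhoT_ne_zero n3
  have n5 := rhoT_ne_zero n4
  rcases le_total 0 (a 0 + a 1) with hs | hs
  · rcases le_total (2 * a 0) (a 1) with hq | hq
    · apply good_of_good_rhoT
      apply good_sector n1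
      · simp only [rhoT_zero, rhoT_one]; linarith
      · simp only [rhoT_zero, rhoT_one]; linarith
    · rcases le_total (a 0) (2 * a 1) with hp | hp
      · exact good_sector ha hp hq
      · apply good_of_good_rhoT
        apply good_of_good_rhoT
        apply good_of_good_rhoT
        apply good_of_good_rhoT
        apply good_of_good_rhoT
        apply good_sector n5
        · simp only [rhoT_zero, rhoT_one]; linarith
        · simp only [rhoT_zero, rhoT_one]; linarith
  · rcases le_total (a 0) (2 * a 1) with hp | hp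
    · apply good_of_good_rhoT
      apply good_of_good_rhoT
      apply good_sector n2
      · simp only [rhoT_zero, rhoT_one]; linarith
      · simp only [rhoT_zero, rhoT_one]; linarith
    · rcases le_total (2 * a 0) (a 1) with hq | hq
      · apply good_of_good_rhoT
        apply good_of_good_rhoT
        apply good_of_good_rhoT
        apply good_sector n3
        · simp only [rhoT_zero, rhoT_one]; linarith
        · simp only [rhoT_zero, rhoT_one]; linarith
      · apply good_of_good_rhoT
        apply good_of_good_rhoT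
        apply good_of_good_rhoT
        apply good_of_good_rhoT
        apply good_sector n4
        · simp only [rhoT_zero, rhoT_one]; linarith
        · simp only [rhoT_zero, rhoT_one]; linarith

end Pool.Agent.Lib.MP_56fddc_gt
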